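import Pool.Agent.V11126.LapSpread

namespace Pool.Agent.Results.MP_436edf_co.SpreadOne

open Pool.Agent.V11126.LapSpread

lemma ncard_compl {V : Type*} [Fintype V] (A : V → V → Prop) (hirr : ∀ v, ¬ A v v) (v : V) :
    Set.ncard {w | v ≠ w ∧ ¬ A v w} + Set.ncard {w | A v w} + 1 = Fintype.card V := by
  classical
  have h1 : ({w | v ≠ w ∧ ¬ A v w} ∪ {w | A v w}) ∪ {v} = (Set.univ : Set V) := by
    ext w
    simp only [Set.mem_union, Set.mem_ofPred_eq, Set.mem_singleton_iff, Set.mem_univ, iff_true]
    by_cases h2 : v = w
    · right; exact h2.symm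
    · left
      by_cases h3 : A v w
      · right; exact h3
      · left; exact ⟨h2, h3⟩
  have h2 : Disjoint {w | v ≠ w ∧ ¬ A v w} {w | A v w} := by
    rw [Set.disjoint_left]
    rintro w ⟨-, h⟩ h'
    exact h h'
  have h3 : Disjoint ({w | v ≠ w ∧ ¬ A v w} ∪ {w | A v w}) {v} := by
    rw [Set.disjoint_singleton_right]
    rintro (⟨h, -⟩ | h)
    · exact h rfl
    · exact hirr v h
  rw [← Nat.card_eq_fintype_card, ← Set.ncard_univ, ← h1, Set.ncard_union_eq h3,
    Set.ncard_union_eq h2, Set.ncard_singleton]

/-- **IsBalanced digraphs of Laplacian spread one.** A balanced digraph of order `n ≥ 3` with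
spread one has even order `n ≥ 4`, and it or its complement is `(n - 2) / 2`-regular. -/
theorem result {V : Type*} [Fintype V] (A : V → V → Prop) (hirr : ∀ v, ¬ A v v)
    (hb : IsBalanced A) (hn : 3 ≤ Fintype.card V) (hs : spread A = 1) :
    4 ≤ Fintype.card V ∧ Even (Fintype.card V) ∧
      (IsDiregular ((Fintype.card V - 2) / 2) A ∨ IsDiregular ((Fintype.card V - 2) / 2) (complDigraph A)) := by
  rcases structure_le_one A hirr hb hs.le (by omega) with ⟨c, hc⟩ | ⟨h4, heven, σ, hσ, hdeg, -⟩
  · rw [spread_const A hb c hc] at hs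
    norm_num at hs
  · refine ⟨h4, heven, ?_⟩
    rcases hσ with rfl | rfl
    · right
      have hd : ∀ i, 2 * Set.ncard {w | A i w} = Fintype.card V := by
        intro i
        have := hdeg i
        have h : (2 : ℝ) * (Set.ncard {w | A i w} : ℝ) = Fintype.card V := by rw [this]; ring
        exact_mod_cast h
      intro v
      have h1 := ncard_compl A hirr v
      have h2 := ncard_compl (fun x y => A y x) hirr v
      have h3 := hd v
      have h4 := hb v
      have e1 : {w | complDigraph A v w} = {w | v ≠ w ∧ ¬ A v w} := rfl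
      have e2 : {w | complDigraph A w v} = {w | v ≠ w ∧ ¬ A w v} := by
        ext w
        simp only [compl, Set.mem_ofPred_eq]
        constructor
        · rintro ⟨a, b⟩; exact ⟨a.symm, b⟩
        · rintro ⟨a, b⟩; exact ⟨a.symm, b⟩
      rw [e1, e2]
      constructor <;> omega
    · left
      have hd : ∀ i, 2 * Set.ncard {w | A i w} + 2 = Fintype.card V := by
        intro i
        have := hdeg i
        have h : (2 : ℝ) * (Set.ncard {w | A i w} : ℝ) + 2 = Fintype.card V := by rw [this]; ring
        exact_mod_cast h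
      intro v
      have h3 := hd v
      have h4 := hb v
      constructor <;> omega

end Pool.Agent.Results.MP_436edf_co.SpreadOne
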